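import Pool.Agent.Q237.ST.Ex

/-!
# MP_d17ed7_nt: two quadratic twists that never have both a non-vanishing central value

`f` is a newform of squarefree level `N` (any weight, trivial character), `χ` an odd quadratic
character with `χ(p) = 1` for all primes `p ∣ N` (the Heegner condition; for `N = 1` every odd `χ`).
For every quadratic character `ψ` the functional equations of `L(f ⊗ ψ, s)` and `L(f ⊗ χψ, s)` have
opposite signs, so that `L(f ⊗ ψ, 1/2) L(f ⊗ χψ, 1/2) = 0`. So the answer to Q1 is no, already for `Δ`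
and for the newform `η(z)² η(11z)²` of weight `2` of the elliptic curves of conductor `11`; for every
newform of squarefree level there are infinitely many such `χ`.

The Hecke operators, the normalised Hecke eigenvalues and the twisted `L`-functions are those of the
starting modules `Pool.Agent.W97.TW`.
-/

set_option autoImplicit false

open UpperHalfPlane MatrixGroups CongruenceSubgroup Pool.Agent.W97.TW

namespace Pool.Agent.Results.MP_d17ed7_nt.OppositeRootNumbers

/-- Q1 for `f` and `χ`: there is a quadratic character `ψ` with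
`L(f ⊗ ψ, 1/2) L(f ⊗ χψ, 1/2) ≠ 0`. Here `χψ` is the primitive character inducing the product. -/
def SimultaneousNonvanishing (N : ℕ) (k : ℤ)
    (f : CuspForm (Gamma0 N : Subgroup (GL (Fin 2) ℝ)) k) (χ : QuadraticCharacter) : Prop :=
  ∃ (ψ : QuadraticCharacter) (L₁ L₂ : ℂ → ℂ), IsTwistedLFunction N k f ψ.χ L₁ ∧
    IsTwistedLFunction N k f (χ.χ.primitive_mul ψ.χ) L₂ ∧ L₁ (1 / 2) * L₂ (1 / 2) ≠ 0

/-- 1. For every newform `f` of squarefree level `N` and every odd quadratic character `χ` with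
`χ(p) = 1` for all `p ∣ N` the `L`-functions `L(f ⊗ ψ, s)`, `L(f ⊗ χψ, s)` exist (and are unique) for
all quadratic characters `ψ`, and the product of their central values is zero for all `ψ`.
2. For every `N` there are infinitely many such `χ`.
3. `Δ = η(z)^24` and `η(z)² η(11z)²` are newforms (of level `1` and weight `12`, of level `11` and
weight `2`). -/
theorem result :
    (∀ (N : ℕ) (k : ℤ) (f : CuspForm (Gamma0 N : Subgroup (GL (Fin 2) ℝ)) k), Squarefree N → 0 < k →
      Q237.ST.IsNewform N k f → ∀ χ : QuadraticCharacter, χ.χ (-1) = -1 →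
      (∀ p : ℕ, p.Prime → p ∣ N → χ.χ p = 1) →
        (∀ ψ : QuadraticCharacter, (∃! L : ℂ → ℂ, IsTwistedLFunction N k f ψ.χ L) ∧
          (∃! L : ℂ → ℂ, IsTwistedLFunction N k f (χ.χ.primitive_mul ψ.χ) L)) ∧
        ¬ SimultaneousNonvanishing N k f χ) ∧
    (∀ N : ℕ, 0 < N → ∀ B : ℕ, ∃ χ : QuadraticCharacter, B < χ.modulus ∧ χ.χ (-1) = -1 ∧
      ∀ p : ℕ, p.Prime → p ∣ N → χ.χ p = 1) ∧
    (∃ Δ : CuspForm (Gamma0 1 : Subgroup (GL (Fin 2) ℝ)) 12,
      (∀ z : ℍ, Δ z = ModularForm.eta z ^ 24) ∧ Q237.ST.IsNewform 1 12 Δ) ∧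
    (∃ F : CuspForm (Gamma0 11 : Subgroup (GL (Fin 2) ℝ)) 2,
      (∀ z : ℍ, F z = ModularForm.eta z ^ 2 * ModularForm.eta (11 * z) ^ 2) ∧
        Q237.ST.IsNewform 11 2 F) := by
  refine ⟨?_, Q237.ST.exists_chi, ⟨deltaForm, deltaForm_apply, Q237.ST.newform_delta⟩,
    ⟨f11, f11_apply, Q237.ST.newform_f11⟩⟩
  intro N k f hN hk hf χ hodd hspl
  have hN0 : NeZero N := ⟨hN.ne_zero⟩
  refine ⟨fun ψ => ?_, ?_⟩
  · obtain ⟨L₁, L₂, h1, h2, -⟩ := Q237.ST.main hN hk hf χ ψ hodd hspl
    exact ⟨⟨L₁, h1, fun L hL => Q237.ST.unique_L _ hL h1⟩,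
      ⟨L₂, h2, fun L hL => Q237.ST.unique_L _ hL h2⟩⟩
  · rintro ⟨ψ, L₁, L₂, h1, h2, hne⟩
    obtain ⟨L₁', L₂', h1', h2', h0⟩ := Q237.ST.main hN hk hf χ ψ hodd hspl
    apply hne
    rw [Q237.ST.unique_L _ h1 h1', Q237.ST.unique_L _ h2 h2', h0]

end Pool.Agent.Results.MP_d17ed7_nt.OppositeRootNumbers
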